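import Pool.Agent.KK.StmtsG

/-!
# KK, row G_CRY (StmtG14): complement and reversal of the mixed crossing (helper24)
-/

set_option autoImplicit false

namespace Pool.Agent.KK.H24

open Pool.Agent.KK Pool.Agent.KK.E

variable {V : Type} [Fintype V] [DecidableEq V]

/-- Complement of the letter of a slot. -/
def cm : Slot V → Slot V := Sum.map id not

omit [Fintype V] [DecidableEq V] in
theorem cm_cm (x : Slot V) : cm (cm x) = x := by
  rcases x with v | b
  · rfl
  · simp [cm]

omit [Fintype V] [DecidableEq V] in
theorem map_cm_cm (s : List (Slot V)) : (s.map cm).map cm = s := by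
  rw [List.map_map]
  have : (cm ∘ cm : Slot V → Slot V) = id := by
    funext x
    exact cm_cm x
  rw [this, List.map_id]

theorem fit_cm (X : Finset V) (x : Slot V) (w : V) : Fit Xᶜ (cm x) w ↔ Fit X x w := by
  rcases x with v | b
  · simp [cm, Fit]
  · cases b <;> simp [cm, Fit]

theorem badC_cm (H : Finset (Finset V)) (X : Finset V) (s : List (Slot V)) :
    BadC H Xᶜ (s.map cm) = BadC H X s := by
  unfold BadC
  ext e
  simp only [Set.mem_setOf_eq, List.forall₂_map_left_iff]
  have : (fun (x : Slot V) (w : V) => Fit Xᶜ (cm x) w) = Fit X := by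
    funext x w
    exact propext (fit_cm X x w)
  rw [this]

omit [Fintype V] [DecidableEq V] in
theorem fr_cm (s : List (Slot V)) : fr (s.map cm) = fr s := by
  unfold fr
  rw [List.countP_map]
  have : (Sum.isRight ∘ cm : Slot V → Bool) = Sum.isRight := by
    funext x
    rcases x with v | b <;> rfl
  rw [this]

theorem oks_cm (H : Finset (Finset V)) (X : Finset V) (ε : ℝ) (s : List (Slot V)) :
    OKs H Xᶜ ε (s.map cm) ↔ OKs H X ε s := by
  unfold OKs
  rw [badC_cm, fr_cm]

theorem okl_cm (H : Finset (Finset V)) (X : Finset V) (k : ℕ) (ε : ℝ) (L : List (Slot V))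
    (h : OKl H Xᶜ k ε (L.map cm)) : OKl H X k ε L := by
  intro s hs hl
  rw [← oks_cm]
  exact h _ (hs.map cm) (by simpa using hl)

theorem badC_reverse (H : Finset (Finset V)) (X : Finset V) (s : List (Slot V)) :
    BadC H X s.reverse = List.reverse '' BadC H X s := by
  ext e
  simp only [BadC, Set.mem_setOf_eq, Set.mem_image]
  constructor
  · rintro ⟨h1, h2, h3⟩
    refine ⟨e.reverse, ⟨?_, by simpa using h2, by simpa using h3⟩, List.reverse_reverse e⟩
    have := List.forall₂_reverse_iff.2 h1
    simpa using this
  · rintro ⟨f, ⟨h1, h2, h3⟩, rfl⟩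
    exact ⟨List.forall₂_reverse_iff.2 h1, by simpa using h2, by simpa using h3⟩

theorem oks_reverse (H : Finset (Finset V)) (X : Finset V) (ε : ℝ) (s : List (Slot V)) :
    OKs H X ε s.reverse ↔ OKs H X ε s := by
  unfold OKs
  have h1 : fr s.reverse = fr s := by
    unfold fr
    rw [List.countP_reverse]
  rw [badC_reverse, Set.ncard_image_of_injective _ List.reverse_injective, h1]

theorem okl_reverse (H : Finset (Finset V)) (X : Finset V) (k : ℕ) (ε : ℝ) (L : List (Slot V))
    (h : OKl H X k ε L.reverse) : OKl H X k ε L := by
  intro s hs hl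
  rw [← oks_reverse]
  exact h _ (List.reverse_infix.2 hs) (by simpa using hl)

omit [Fintype V] [DecidableEq V] in
theorem fw_cm (u : List Bool) : (fw u : List (Slot V)).map cm = fw (u.map not) := by
  simp only [fw, List.map_map]
  rfl

omit [Fintype V] [DecidableEq V] in
theorem vx_cm (l : List V) : (vx l : List (Slot V)).map cm = vx l := by
  simp only [vx, List.map_map]
  rfl

theorem g14 (e07 : StmtE07) (g09 : StmtG09) : StmtG14 := by
  intro V _ _ H X M Z p q B δ h ε η θ hA hC hM hZ hMZ hne hMX hcard hmix
  have hX : X.Nonempty := by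
    rw [← Finset.card_pos]
    have h0 := hA.big
    have h1 := hA.lo
    have h2 : (0 : ℝ) < δ * (Fintype.card V : ℝ) := by
      refine lt_of_lt_of_le ?_ h0
      positivity
    have h3 : (0 : ℝ) < (Fintype.card V : ℝ) := by
      by_contra hc
      push Not at hc
      nlinarith [hA.pos]
    have h4 : (0 : ℝ) < (X.card : ℝ) := by
      nlinarith [hA.small]
    exact_mod_cast h4
  have hX' : (Xᶜ).Nonempty := by
    rw [← Finset.card_pos]
    have h0 := hA.big
    have h1 := hA.lo'
    have h2 : (0 : ℝ) < δ * (Fintype.card V : ℝ) := by
      refine lt_of_lt_of_le ?_ h0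
      positivity
    have h3 : (0 : ℝ) < (Fintype.card V : ℝ) := by
      by_contra hc
      push Not at hc
      nlinarith [hA.pos]
    have h4 : (0 : ℝ) < ((Xᶜ).card : ℝ) := by
      nlinarith [hA.small]
    exact_mod_cast h4
  obtain ⟨-, s2, -, s4, s5⟩ := e07 V H X hX hX'
  have hpq : q + p + 2 = p + q + 2 := by omega
  have hpq1 : q + p + 1 = p + q + 1 := by omega
  have hA' : Amb H Xᶜ q p B δ := s5 p q B δ hA
  have hM' : Mst H Xᶜ q p η M := (s4 p q η M).2 hM
  have hmix' : θ M.card < Mix H Xᶜ M (q + 1 - M.card) p := by
    rw [s2 M p (q + 1 - M.card)]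
    exact hmix
  obtain ⟨l, l1, l2, l3, l4⟩ := g09 V H Xᶜ M Z q p B δ h ε η θ hA' (by rw [hpq]; exact hC) hM' hZ
    hMZ hne hMX hcard hmix'
  have hdec : ∀ v : V, decide (v ∈ X) = !(decide (v ∈ Xᶜ)) := by
    intro v
    by_cases hv : v ∈ X <;> simp [hv]
  refine ⟨l.reverse, List.nodup_reverse.2 l1, fun v hv => l2 v (List.mem_reverse.1 hv), ?_, ?_⟩
  · have h1 : l.reverse.map (fun v => decide (v ∈ X)) =
        ((l.map (fun v => decide (v ∈ Xᶜ))).map not).reverse := by
      rw [List.map_reverse, List.map_map]
      congr 1
      apply List.map_congr_left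
      intro v _
      exact hdec v
    rw [h1, l3]
    simp [List.reverse_append, List.map_append, List.append_assoc]
  · apply okl_reverse
    apply okl_cm
    have h2 : List.map cm (fw ((List.replicate (M.card + 1) false ++ List.replicate p true ++
          List.replicate q false).take (p + q + 1)).reverse ++ vx l.reverse ++
            fw (high p q)).reverse =
        fw (low q p) ++ vx l ++
        fw ((List.replicate (M.card + 1) true ++ List.replicate p false ++
          List.replicate q true).take (q + p + 1)) := by
      rw [List.reverse_append, List.reverse_append, List.map_append, List.map_append]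
      have a1 : List.map cm (fw (high p q) : List (Slot V)).reverse = fw (low q p) := by
        rw [List.map_reverse, fw_cm]
        unfold fw low high
        rw [← List.map_reverse]
        congr 1
        simp
      have a2 : List.map cm (vx l.reverse : List (Slot V)).reverse = vx l := by
        rw [List.map_reverse, vx_cm]
        unfold vx
        rw [← List.map_reverse, List.reverse_reverse]
      have a3 : List.map cm (fw ((List.replicate (M.card + 1) false ++ List.replicate p true ++
          List.replicate q false).take (p + q + 1)).reverse : List (Slot V)).reverse =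
          fw ((List.replicate (M.card + 1) true ++ List.replicate p false ++
          List.replicate q true).take (q + p + 1)) := by
        rw [List.map_reverse, fw_cm]
        unfold fw
        rw [← List.map_reverse, ← List.map_reverse, List.reverse_reverse, hpq1]
        congr 1
        rw [List.map_take]
        simp
      rw [a1, a2, a3, List.append_assoc (fw (low q p))]
    rw [h2, ← hpq]
    exact l4

end Pool.Agent.KK.H24
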