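import Mathlib
import Pool.Agent.KK.StmtsB

/-! MP_747bc0_co, block B: MSX (a non-trivial closed system gives a missing type). -/

namespace Pool.Agent.KK.B.H24

open Function
open scoped Classical
open Pool.Agent.KK.B

variable {k : ℕ} {V : Type} [Fintype V]

/-- a predicate of small density on every word has small density -/
theorem dens_words (X : V → Prop) (P : (Fin k → V) → Prop) {ν : ℝ}
    (h : ∀ W : Fin k → Bool, dens (fun a => P a ∧ wd X W a) ≤ ν) : dens P ≤ 2 ^ k * ν := by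
  have h1 : dens P ≤ dens (fun a => ∃ W : Fin k → Bool, P a ∧ wd X W a) := by
    refine dens_mono fun a ha => ⟨fun l => decide (X (a l)), ha, fun l => ?_⟩
    simp
  have h2 := dens_exists_le fun (W : Fin k → Bool) (a : Fin k → V) => P a ∧ wd X W a
  have h3 : ∑ W : Fin k → Bool, dens (fun a => P a ∧ wd X W a) ≤ ∑ _W : Fin k → Bool, ν :=
    Finset.sum_le_sum fun W _ => h W
  rw [Finset.sum_const, Finset.card_univ, Fintype.card_fun, Fintype.card_bool, Fintype.card_fin,
    nsmul_eq_mul] at h3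
  push_cast at h3
  exact h1.trans (h2.trans h3)

/-- row MSX -/
theorem msx (gbx : GbxStmt) (mis : MisStmt) (min' : MinStmt) (wgr : WgrStmt) : MsxStmt := by
  intro k ν hk hν
  have h4 : (0 : ℝ) < 4 ^ (k + 1) := by positivity
  obtain ⟨m, hm⟩ : ∃ m : ℝ, m = min ν (1 / 8) := ⟨_, rfl⟩
  have hm0 : 0 < m := by rw [hm]; exact lt_min hν (by norm_num)
  have hmν : m ≤ ν := by rw [hm]; exact min_le_left _ _
  have hm8 : m ≤ 1 / 8 := by rw [hm]; exact min_le_right _ _
  obtain ⟨ν', hν'⟩ : ∃ ν' : ℝ, ν' = m / 4 ^ (k + 1) := ⟨_, rfl⟩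
  have hν'0 : 0 < ν' := by rw [hν']; exact div_pos hm0 h4
  have h1le : (1 : ℝ) ≤ 4 ^ (k + 1) := one_le_pow₀ (by norm_num)
  have hν'm : ν' ≤ m := by rw [hν']; exact div_le_self hm0.le h1le
  have h2k : (2 : ℝ) ^ k * (3 * ν') ≤ m := by
    have e1 : m = 4 ^ (k + 1) * ν' := by rw [hν']; field_simp
    have e2 : (2 : ℝ) ^ k ≤ 4 ^ k := pow_le_pow_left₀ (by norm_num) (by norm_num) k
    have e3 : (4 : ℝ) ^ (k + 1) = 4 * 4 ^ k := by ring
    have e4 : (0 : ℝ) ≤ 4 ^ k := by positivity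
    rw [e3] at e1
    have e5 : (2 : ℝ) ^ k * (3 * ν') ≤ 4 ^ k * (3 * ν') :=
      mul_le_mul_of_nonneg_right e2 (by positivity)
    have e6 : (4 : ℝ) ^ k * (3 * ν') ≤ 4 * 4 ^ k * ν' := by nlinarith
    calc (2 : ℝ) ^ k * (3 * ν') ≤ 4 ^ k * (3 * ν') := e5
      _ ≤ 4 * 4 ^ k * ν' := e6
      _ = m := e1.symm
  obtain ⟨ε', hε'0, hε'⟩ := gbx k ν' (by omega) hν'0
  refine ⟨min ε' ν', lt_min hε'0 hν'0, ?_⟩
  intro V _ _ E D0 hS hDeg hI hC hT
  have hC' : Closed E ε' D0 := hC.trans (min_le_left _ _)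
  have hT' : ¬ Triv ν' D0 := by
    intro h
    apply hT
    rcases h with h | h
    · exact Or.inl fun i => (h i).trans (hν'm.trans hmν)
    · exact Or.inr fun i => (h i).trans (hν'm.trans hmν)
  obtain ⟨X, hX, hall⟩ := hε' V E D0 hS hDeg hI hC' hT'
  have hW : WDet ν' X D0 := hall D0 hI hC'
  refine ⟨X, ?_⟩
  by_contra hcon
  push Not at hcon
  have hXν : |dens X - 1 / 2| ≤ ν := hX.trans (hν'm.trans hmν)
  have hX8 : |dens X - 1 / 2| ≤ 1 / 8 := hX.trans (hν'm.trans hm8)
  have hX0 : 0 < dens X := by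
    have := abs_le.1 hX8
    linarith [this.1]
  have hX1 : dens X < 1 := by
    have := abs_le.1 hX8
    linarith [this.2]
  -- the majority values are constant
  have hmaj : ∀ W W' i l, (maj D0 X i W ↔ maj D0 X l W') := by
    refine (wgr k (fun i W => maj D0 X i W) (fun t => ¬ (1 ≤ t ∧ t ≤ k - 1)) ?_ ?_).2 hk ?_
    · exact fun i W b => min' k V D0 X i W b hI hX0 hX1
    · intro W hWt i l
      rw [not_not] at hWt
      by_contra hne
      have h5 := mis k V E D0 X (min ε' ν') ν' i l W hS hC hW hne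
      have h6 := hcon (wt W) hWt.1 hWt.2 hXν
      have h7 : (2 : ℝ) ^ k * (min ε' ν' + 2 * ν') ≤ 2 ^ k * (3 * ν') := by
        refine mul_le_mul_of_nonneg_left ?_ (by positivity)
        have := min_le_right ε' ν'
        linarith
      linarith
    · intro t ht1 ht2 h
      exact h ⟨ht1, ht2⟩
  have h2ν : (2 : ℝ) ^ k * ν' ≤ ν := by
    have e1 : (0 : ℝ) ≤ 2 ^ k * ν' := by positivity
    nlinarith
  apply hT
  have i0 : Fin k := ⟨0, by omega⟩
  by_cases h0 : maj D0 X i0 (fun _ => false)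
  · right
    intro i
    refine (dens_words X (fun a => ¬ D0 i a) fun W => ?_).trans h2ν
    have h1 : maj D0 X i W := (hmaj _ W i0 i).1 h0
    unfold maj at h1
    rcases hW i W with h | h
    · exact h1.trans h
    · exact h
  · left
    intro i
    refine (dens_words X (D0 i) fun W => ?_).trans h2ν
    have h1 : ¬ maj D0 X i W := fun h => h0 ((hmaj _ W i0 i).2 h)
    unfold maj at h1
    rw [not_le] at h1
    rcases hW i W with h | h
    · exact h
    · exact h1.le.trans h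

end Pool.Agent.KK.B.H24
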